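import Pool.Agent.N561.C.Stm
import Pool.Agent.N496.VS.Der

/-!
# The critical value of the clasp as a function of `ψ`

`S_CF`: near `ψ = 0` the function `FC` is holomorphic, even, and `FC'' (0) = -(1 - i) / (4 π)`.
-/

set_option autoImplicit false

namespace Pool.Agent.N683.VS

open Filter Topology Metric Set
open Pool.Agent.W711.HT hiding XX
open Pool.Agent.N561
open Pool.Agent.N496.VS
open scoped Real

/-- `π` times the critical point -/
noncomputable def AC (ψ : ℂ) : ℂ :=
  Complex.log (1 + 2 * Complex.I * Complex.cos (ψ / 2)) / (2 * Complex.I)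

/-- its derivative -/
noncomputable def A1 (ψ : ℂ) : ℂ :=
  -(Complex.sin (ψ / 2) / (1 + 2 * Complex.I * Complex.cos (ψ / 2))) / 2

theorem pi_dc (ψ : ℂ) : π * dc ψ = AC ψ := by
  unfold dc AC
  have := pi_ne
  field_simp

theorem dc_eq (ψ : ℂ) : dc ψ = AC ψ / π := by
  rw [← pi_dc]
  have := pi_ne
  field_simp

/-- the domain -/
def DN : Set ℂ := {ψ | 1 + 2 * Complex.I * Complex.cos (ψ / 2) ∈ Complex.slitPlane}

theorem DN_open : IsOpen DN :=
  Complex.isOpen_slitPlane.preimage (by fun_prop)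

theorem zero_mem : (0 : ℂ) ∈ DN := by
  unfold DN
  simp [Complex.mem_slitPlane_iff]

theorem AC_deriv {ψ : ℂ} (h : ψ ∈ DN) : HasDerivAt AC (A1 ψ) ψ := by
  have h0 : 1 + 2 * Complex.I * Complex.cos (ψ / 2) ≠ 0 := Complex.slitPlane_ne_zero h
  have k0 : HasDerivAt (fun z : ℂ => z / 2) (1 / 2) ψ := (hasDerivAt_id ψ).div_const 2
  have k1 := ((((k0.ccos).const_mul (2 * Complex.I)).const_add 1).clog h).div_const
    (2 * Complex.I)
  refine k1.congr_deriv ?_
  unfold A1
  have := Complex.I_ne_zero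
  field_simp

theorem AC_an {ψ : ℂ} (h : ψ ∈ DN) : AnalyticAt ℂ AC ψ := by
  have : DifferentiableOn ℂ AC DN := fun z hz =>
    (AC_deriv hz).differentiableAt.differentiableWithinAt
  exact this.analyticAt (DN_open.mem_nhds h)

theorem FC_eq (ψ : ℂ) : FC ψ = (LL (AC ψ + ψ / 2) + LL (AC ψ - ψ / 2)) / π -
    3 * (LS (AC ψ) / π) - π * Complex.I / 2 * (AC ψ / π + (AC ψ / π) ^ 2) := by
  unfold FC QC RR
  rw [pi_dc, dc_eq]

theorem AC_neg (ψ : ℂ) : AC (-ψ) = AC ψ := by
  unfold AC
  rw [neg_div, Complex.cos_neg]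

theorem FC_neg (ψ : ℂ) : FC (-ψ) = FC ψ := by
  rw [FC_eq, FC_eq, AC_neg, neg_div, sub_neg_eq_add, ← sub_eq_add_neg, add_comm (LL _)]

theorem AC0_exp : Complex.exp (2 * Complex.I * AC 0) = 1 + 2 * Complex.I := by
  unfold AC
  have e : 2 * Complex.I * (Complex.log (1 + 2 * Complex.I * Complex.cos (0 / 2)) /
      (2 * Complex.I)) = Complex.log (1 + 2 * Complex.I) := by
    have := Complex.I_ne_zero
    rw [zero_div, Complex.cos_zero, mul_one]
    field_simp
  rw [e, Complex.exp_log]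
  intro h
  have := congrArg Complex.re h
  simp at this

theorem AC0_re : (AC 0).re = Real.arctan 2 / 2 := by
  unfold AC
  rw [zero_div, Complex.cos_zero, mul_one]
  have e : Complex.log (1 + 2 * Complex.I) / (2 * Complex.I) =
      -(Complex.I / 2) * Complex.log (1 + 2 * Complex.I) := by
    have := Complex.I_ne_zero
    field_simp
    rw [Complex.I_sq]
    ring
  rw [e]
  have h1 : (Complex.log (1 + 2 * Complex.I)).im = Real.arctan 2 := by
    rw [Complex.log_im, Complex.arg_of_re_nonneg (by simp)]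
    rw [Real.arctan_eq_arcsin]
    congr 1
    rw [Complex.norm_def, Complex.normSq_apply]
    norm_num
  simp only [Complex.mul_re, Complex.neg_re, Complex.neg_im, Complex.div_ofNat_re,
    Complex.div_ofNat_im, Complex.I_re, Complex.I_im, h1]
  ring

theorem AC0_im : (AC 0).im < 0 := by
  unfold AC
  rw [zero_div, Complex.cos_zero, mul_one]
  have e : Complex.log (1 + 2 * Complex.I) / (2 * Complex.I) =
      -(Complex.I / 2) * Complex.log (1 + 2 * Complex.I) := by
    have := Complex.I_ne_zero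
    field_simp
    rw [Complex.I_sq]
    ring
  rw [e]
  have h1 : 0 < (Complex.log (1 + 2 * Complex.I)).re := by
    rw [Complex.log_re]
    apply Real.log_pos
    rw [Complex.norm_def, Complex.normSq_apply]
    rw [Real.lt_sqrt (by norm_num)]
    norm_num
  simp only [Complex.mul_im, Complex.neg_re, Complex.neg_im, Complex.div_ofNat_re,
    Complex.div_ofNat_im, Complex.I_re, Complex.I_im]
  linarith

theorem AC0_re_pos : 0 < (AC 0).re := by
  rw [AC0_re]
  have : 0 < Real.arctan 2 := Real.arctan_pos.2 (by norm_num)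
  linarith

theorem AC0_re_lt : (AC 0).re < π / 4 := by
  rw [AC0_re]
  have := Real.arctan_lt_pi_div_two 2
  linarith


/-- the logarithmic critical equation -/
noncomputable def EC (ψ : ℂ) : ℂ := Complex.log (2 * Complex.cos (AC ψ + ψ / 2)) +
  Complex.log (2 * Complex.cos (AC ψ - ψ / 2)) - 3 * Complex.log (2 * Complex.sin (AC ψ)) -
  π * Complex.I / 2 - Complex.I * AC ψ

theorem arg_cos {w : ℂ} (h0 : 0 < w.re) (h1 : w.re < π / 4) (h2 : w.im < 0) :
    0 < (Complex.log (2 * Complex.cos w)).im ∧ (Complex.log (2 * Complex.cos w)).im < π / 2 := by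
  have hp := Real.pi_pos
  have hc : 0 < (Complex.cos w).re := by
    rw [cos_re]
    exact mul_pos (Real.cos_pos_of_mem_Ioo ⟨by linarith, by linarith⟩) (Real.cosh_pos _)
  have hs : 0 < (Complex.cos w).im := by
    rw [cos_im]
    have a1 : 0 < Real.sin w.re := Real.sin_pos_of_pos_of_lt_pi h0 (by linarith)
    have a2 : Real.sinh w.im < 0 := Real.sinh_neg_iff.2 h2
    have := mul_neg_of_pos_of_neg a1 a2
    linarith
  have e : (2 * Complex.cos w) = ((2 : ℝ) : ℂ) * Complex.cos w := by norm_num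
  rw [Complex.log_im, e, Complex.arg_real_mul _ (by norm_num)]
  have k1 : |(Complex.cos w).arg| < π / 2 := Complex.abs_arg_lt_pi_div_two_iff.2 (Or.inl hc)
  have k2 : 0 ≤ (Complex.cos w).arg := Complex.arg_nonneg_iff.2 hs.le
  have k3 : (Complex.cos w).arg ≠ 0 := by
    intro h
    have := (Complex.arg_eq_zero_iff.1 h).2
    linarith
  exact ⟨lt_of_le_of_ne k2 (Ne.symm k3), (abs_lt.1 k1).2⟩

theorem arg_sin {w : ℂ} (h0 : 0 < w.re) (h1 : w.re < π / 4) (h2 : w.im < 0) :
    -(π / 2) < (Complex.log (2 * Complex.sin w)).im ∧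
      (Complex.log (2 * Complex.sin w)).im < 0 := by
  have hp := Real.pi_pos
  have hc : 0 < (Complex.sin w).re := by
    rw [sin_re]
    exact mul_pos (Real.sin_pos_of_pos_of_lt_pi h0 (by linarith)) (Real.cosh_pos _)
  have hs : (Complex.sin w).im < 0 := by
    rw [sin_im]
    have a1 : 0 < Real.cos w.re := Real.cos_pos_of_mem_Ioo ⟨by linarith, by linarith⟩
    have a2 : Real.sinh w.im < 0 := Real.sinh_neg_iff.2 h2
    exact mul_neg_of_pos_of_neg a1 a2
  have e : (2 * Complex.sin w) = ((2 : ℝ) : ℂ) * Complex.sin w := by norm_num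
  rw [Complex.log_im, e, Complex.arg_real_mul _ (by norm_num)]
  have k1 : |(Complex.sin w).arg| < π / 2 := Complex.abs_arg_lt_pi_div_two_iff.2 (Or.inl hc)
  have k2 : (Complex.sin w).arg < 0 := Complex.arg_neg_iff.2 hs
  exact ⟨(abs_lt.1 k1).1, k2⟩

theorem DL_of {w : ℂ} (h : |w.re| < π / 2) : w ∈ DL :=
  ⟨by have := Real.pi_pos; linarith, Or.inr h⟩

theorem AC0_DL : AC 0 ∈ DL := DL_of (by
  rw [abs_of_pos AC0_re_pos]
  have := AC0_re_lt
  have := Real.pi_pos
  linarith)

theorem AC0_DS : AC 0 ∈ DS := ⟨AC0_re_pos, by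
  have := AC0_re_lt
  have := Real.pi_pos
  linarith⟩

theorem two_cos_exp (w : ℂ) : 2 * Complex.cos w * Complex.exp (Complex.I * w) =
    Complex.exp (2 * Complex.I * w) + 1 := by
  rw [Complex.cos]
  have e1 : Complex.exp (2 * Complex.I * w) = Complex.exp (w * Complex.I) *
      Complex.exp (Complex.I * w) := by
    rw [← Complex.exp_add]; congr 1; ring
  have e2 : (1 : ℂ) = Complex.exp (-w * Complex.I) * Complex.exp (Complex.I * w) := by
    rw [← Complex.exp_add, ← Complex.exp_zero]; congr 1; ring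
  rw [e1]
  linear_combination (-1 : ℂ) * e2

theorem two_sin_exp (w : ℂ) : 2 * Complex.sin w * Complex.exp (Complex.I * w) =
    -Complex.I * (Complex.exp (2 * Complex.I * w) - 1) := by
  rw [Complex.sin]
  have e1 : Complex.exp (2 * Complex.I * w) = Complex.exp (w * Complex.I) *
      Complex.exp (Complex.I * w) := by
    rw [← Complex.exp_add]; congr 1; ring
  have e2 : (1 : ℂ) = Complex.exp (-w * Complex.I) * Complex.exp (Complex.I * w) := by
    rw [← Complex.exp_add, ← Complex.exp_zero]; congr 1; ring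
  rw [e1]
  linear_combination (-Complex.I) * e2

theorem EC0 : EC 0 = 0 := by
  have hexp : Complex.exp (EC 0) = 1 := by
    unfold EC
    have hc : 2 * Complex.cos (AC 0) ≠ 0 := Complex.slitPlane_ne_zero (DL_slit AC0_DL)
    have hs : 2 * Complex.sin (AC 0) ≠ 0 := Complex.slitPlane_ne_zero (DS_slit AC0_DS)
    have z1 : AC 0 + 0 / 2 = AC 0 := by ring
    have z2 : AC 0 - 0 / 2 = AC 0 := by ring
    rw [z1, z2]
    have hE : Complex.exp (Complex.I * AC 0) ≠ 0 := Complex.exp_ne_zero _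
    have c1 := two_cos_exp (AC 0)
    have s1 := two_sin_exp (AC 0)
    rw [AC0_exp] at c1 s1
    have e2 : Complex.exp (Complex.I * AC 0) ^ 2 = 1 + 2 * Complex.I := by
      rw [← AC0_exp, ← Complex.exp_nat_mul]
      congr 1
      push_cast
      ring
    have hIe : Complex.exp (π * Complex.I / 2) = Complex.I := by
      have : (π * Complex.I / 2 : ℂ) = π / 2 * Complex.I := by ring
      rw [this, Complex.exp_pi_div_two_mul_I]
    rw [Complex.exp_sub, Complex.exp_sub, Complex.exp_sub, Complex.exp_add, Complex.exp_log hc,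
      hIe]
    have e3 : Complex.exp (3 * Complex.log (2 * Complex.sin (AC 0))) =
        (2 * Complex.sin (AC 0)) ^ 3 := by
      have : (3 : ℂ) * Complex.log (2 * Complex.sin (AC 0)) =
        ((3 : ℕ) : ℂ) * Complex.log (2 * Complex.sin (AC 0)) := by norm_num
      rw [this, Complex.exp_nat_mul, Complex.exp_log hs]
    rw [e3]
    set C := 2 * Complex.cos (AC 0)
    set S := 2 * Complex.sin (AC 0)
    set E := Complex.exp (Complex.I * AC 0)
    have hI := Complex.I_sq
    rw [div_div, div_div, div_eq_one_iff_eq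
      (mul_ne_zero (pow_ne_zero 3 hs) (mul_ne_zero Complex.I_ne_zero hE))]
    -- C ^ 2 = S ^ 3 * I * E
    have hE3 : E ^ 2 ≠ 0 := pow_ne_zero 2 hE
    apply mul_right_cancel₀ hE3
    have l : C * C * E ^ 2 = (C * E) ^ 2 := by ring
    have r : S ^ 3 * (Complex.I * E) * E ^ 2 = Complex.I * (S * E) ^ 3 := by ring
    rw [l, r, c1, s1]
    linear_combination (4 + 8 * Complex.I * (1 - Complex.I ^ 2 + Complex.I ^ 4)) * hI
  apply eq_zero_of_exp hexp
  have hp := Real.pi_pos
  obtain ⟨a1, a2⟩ := arg_cos AC0_re_pos AC0_re_lt AC0_im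
  obtain ⟨b1, b2⟩ := arg_sin AC0_re_pos AC0_re_lt AC0_im
  have h1 := AC0_re_pos
  have h2 := AC0_re_lt
  have e : (EC 0).im = 2 * (Complex.log (2 * Complex.cos (AC 0))).im -
      3 * (Complex.log (2 * Complex.sin (AC 0))).im - π / 2 - (AC 0).re := by
    unfold EC
    have z1 : AC 0 + 0 / 2 = AC 0 := by ring
    have z2 : AC 0 - 0 / 2 = AC 0 := by ring
    rw [z1, z2]
    simp
    ring
  rw [e, abs_lt]
  constructor <;> linarith

/-- the first derivative -/
noncomputable def F1 (ψ : ℂ) : ℂ := A1 ψ * EC ψ / π +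
  (Complex.log (2 * Complex.cos (AC ψ + ψ / 2)) -
    Complex.log (2 * Complex.cos (AC ψ - ψ / 2))) / (2 * π)

theorem FC_deriv {ψ : ℂ} (h : ψ ∈ DN) (h1 : AC ψ + ψ / 2 ∈ DL) (h2 : AC ψ - ψ / 2 ∈ DL)
    (h3 : AC ψ ∈ DS) : HasDerivAt FC (F1 ψ) ψ := by
  have hpi := pi_ne
  have a := AC_deriv h
  have k0 : HasDerivAt (fun z : ℂ => z / 2) (1 / 2) ψ := (hasDerivAt_id ψ).div_const 2
  have m1 := (LL_deriv h1).comp ψ (a.add k0)
  have m2 := (LL_deriv h2).comp ψ (a.sub k0)
  have m3 := (LS_deriv h3).comp ψ a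
  have m4 := (a.div_const (π : ℂ)).add ((a.div_const (π : ℂ)).pow 2)
  have k := ((((m1.add m2).div_const (π : ℂ))).sub ((m3.div_const (π : ℂ)).const_mul 3)).sub
    (m4.const_mul (π * Complex.I / 2))
  refine (k.congr_deriv ?_).congr_of_eventuallyEq (Eventually.of_forall fun z => ?_)
  · unfold F1 EC
    simp only [Nat.cast_ofNat, Nat.add_one_sub_one, pow_one]
    field_simp
    ring
  · rw [FC_eq]
    rfl

theorem near : ∀ᶠ ψ in 𝓝 (0 : ℂ), ψ ∈ DN ∧ AC ψ + ψ / 2 ∈ DL ∧ AC ψ - ψ / 2 ∈ DL ∧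
    AC ψ ∈ DS := by
  have c := (AC_deriv zero_mem).continuousAt
  have c0 : ContinuousAt (fun z : ℂ => z / 2) 0 := by fun_prop
  have n1 := (c.add c0).eventually (DL_open.mem_nhds (show AC 0 + 0 / 2 ∈ DL by
    rw [zero_div, add_zero]; exact AC0_DL))
  have n2 := (c.sub c0).eventually (DL_open.mem_nhds (show AC 0 - 0 / 2 ∈ DL by
    rw [zero_div, sub_zero]; exact AC0_DL))
  have n3 := c.eventually (DS_open.mem_nhds AC0_DS)
  filter_upwards [DN_open.mem_nhds zero_mem, n1, n2, n3] with ψ a1 a2 a3 a4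
  exact ⟨a1, a2, a3, a4⟩

theorem tan0 : Complex.sin (AC 0) / Complex.cos (AC 0) = (1 - Complex.I) / 2 := by
  have hc : 2 * Complex.cos (AC 0) ≠ 0 := Complex.slitPlane_ne_zero (DL_slit AC0_DL)
  have hc' : Complex.cos (AC 0) ≠ 0 := fun h => hc (by rw [h, mul_zero])
  have c1 := two_cos_exp (AC 0)
  have s1 := two_sin_exp (AC 0)
  rw [AC0_exp] at c1 s1
  have hE : Complex.exp (Complex.I * AC 0) ≠ 0 := Complex.exp_ne_zero _
  rw [div_eq_div_iff hc' (by norm_num)]
  apply mul_right_cancel₀ hE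
  have hI := Complex.I_sq
  linear_combination s1 - (1 - Complex.I) / 2 * c1 - (1 : ℂ) * hI

theorem F1_deriv : HasDerivAt F1 (-(1 - Complex.I) / (4 * π)) 0 := by
  have hpi := pi_ne
  have a := AC_deriv zero_mem
  have hA0 : A1 0 = 0 := by unfold A1; simp
  rw [hA0] at a
  have k0 : HasDerivAt (fun z : ℂ => z / 2) (1 / 2) 0 := (hasDerivAt_id (0 : ℂ)).div_const 2
  have z1 : AC 0 + 0 / 2 = AC 0 := by ring
  have z2 : AC 0 - 0 / 2 = AC 0 := by ring
  have l1 := lc_deriv (a.add k0) (show (AC + fun z : ℂ => z / 2) 0 ∈ DL by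
    show AC 0 + 0 / 2 ∈ DL
    rw [z1]; exact AC0_DL)
  have l2 := lc_deriv (a.sub k0) (show (AC - fun z : ℂ => z / 2) 0 ∈ DL by
    show AC 0 - 0 / 2 ∈ DL
    rw [z2]; exact AC0_DL)
  have l3 := ls_deriv a AC0_DS
  have hE : HasDerivAt EC (deriv EC 0) 0 := by
    apply DifferentiableAt.hasDerivAt
    have := ((((l1.add l2).sub (l3.const_mul 3)).sub_const (π * Complex.I / 2)).sub
      (a.const_mul Complex.I)).differentiableAt
    exact this
  have hA : HasDerivAt A1 (deriv A1 0) 0 := by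
    apply DifferentiableAt.hasDerivAt
    have d1 : DifferentiableAt ℂ (fun z : ℂ => Complex.sin (z / 2)) 0 := by fun_prop
    have d2 : DifferentiableAt ℂ (fun z : ℂ => 1 + 2 * Complex.I * Complex.cos (z / 2)) 0 := by
      fun_prop
    exact ((d1.div d2 (Complex.slitPlane_ne_zero zero_mem)).neg).div_const 2
  have k := ((hA.mul hE).div_const (π : ℂ)).add ((l1.sub l2).div_const (2 * π : ℂ))
  refine k.congr_deriv ?_
  rw [EC0, hA0]
  have e1 : (AC + fun z : ℂ => z / 2) 0 = AC 0 := z1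
  have e2 : (AC - fun z : ℂ => z / 2) 0 = AC 0 := z2
  rw [e1, e2, tan0]
  field_simp
  ring

theorem FC_an : AnalyticAt ℂ FC 0 := by
  have := near
  rw [Metric.eventually_nhds_iff_ball] at this
  obtain ⟨e, he, h⟩ := this
  have : DifferentiableOn ℂ FC (ball 0 e) := fun z hz =>
    (FC_deriv (h z hz).1 (h z hz).2.1 (h z hz).2.2.1
      (h z hz).2.2.2).differentiableAt.differentiableWithinAt
  exact this.analyticAt (isOpen_ball.mem_nhds (mem_ball_self he))

theorem FC_dd : deriv (deriv FC) 0 = -(1 - Complex.I) / (4 * π) := by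
  have ev : deriv FC =ᶠ[𝓝 0] F1 := by
    filter_upwards [near] with ψ h
    exact (FC_deriv h.1 h.2.1 h.2.2.1 h.2.2.2).deriv
  rw [ev.deriv_eq]
  exact F1_deriv.deriv

theorem cf : S_CF := by
  have hp := Real.pi_pos
  have h2 : ContinuousAt (deriv (deriv FC)) 0 := FC_an.deriv.deriv.continuousAt
  have hre : (deriv (deriv FC) 0).re = -(1 / (4 * π)) := by
    rw [FC_dd]
    have : (-(1 - Complex.I) / (4 * π) : ℂ) = ((1 / (4 * π) : ℝ) : ℂ) * (-(1 - Complex.I)) := by
      push_cast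
      ring
    rw [this, Complex.re_ofReal_mul]
    simp
  have e1 : ∀ᶠ ψ in 𝓝 (0 : ℂ), (deriv (deriv FC) ψ).re < -(1 / (8 * π)) := by
    have c : ContinuousAt (fun ψ => (deriv (deriv FC) ψ).re) 0 :=
      Complex.continuous_re.continuousAt.comp h2
    apply c.eventually_lt continuousAt_const
    rw [hre]
    apply neg_lt_neg
    apply one_div_lt_one_div_of_lt <;> linarith
  have e2 : ∀ᶠ ψ in 𝓝 (0 : ℂ), ‖deriv (deriv FC) ψ‖ < ‖deriv (deriv FC) 0‖ + 1 := by
    apply h2.norm.eventually_lt continuousAt_const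
    linarith
  have e3 := FC_an.eventually_analyticAt
  have e := (e1.and (e2.and e3))
  rw [Metric.eventually_nhds_iff_ball] at e
  obtain ⟨s, hs, h⟩ := e
  have sub : ∀ ψ ∈ Rc (s / 2) (s / 2), ψ ∈ ball (0 : ℂ) s := by
    intro ψ hψ
    rw [mem_ball_zero_iff]
    have := Complex.norm_le_abs_re_add_abs_im ψ
    have a1 : |ψ.re| < s / 2 := hψ.1
    have a2 : |ψ.im| < s / 2 := hψ.2
    linarith
  refine ⟨s / 2, 1 / (8 * π), ‖deriv (deriv FC) 0‖ + 1, by linarith, by positivity,
    by positivity, ?_, ?_, ?_⟩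
  · intro ψ hψ
    exact (h ψ (sub ψ hψ)).2.2.differentiableAt.differentiableWithinAt
  · intro ψ _
    exact FC_neg ψ
  · intro ψ hψ
    exact ⟨(h ψ (sub ψ hψ)).1.le, (h ψ (sub ψ hψ)).2.1.le⟩

end Pool.Agent.N683.VS
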